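import Pool.Agent.Y278.Cham.Ex

/-!
# The eigenvalues of the Jacobian matrix of `F` have modulus at least `1/5`
-/

namespace Pool.Agent.Y278.Cham

open Matrix

/-- The reduced eigenvalue equations have no nontrivial solution for small `z`. -/
theorem reduced (U W r : ℝ) (hr : r ^ 2 = 1 + U ^ 2 + W ^ 2) (hr0 : 0 < r) (z a b : ℂ)
    (hz : ‖z‖ < 1 / 5)
    (h1 : (r : ℂ) * z * ((z + U) * a - W * b) = ((r : ℂ) ^ 2 + z * U) * a + z * W * b)
    (h2 : (r : ℂ) * b = z * ((z + U) * b + W * a)) : a = 0 ∧ b = 0 := by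
  have hr1 : 1 ≤ r := by nlinarith [sq_nonneg U, sq_nonneg W]
  have hU : |U| ≤ r := abs_le_of_sq_le_sq (by nlinarith [sq_nonneg W]) hr0.le
  have hW : |W| ≤ r := abs_le_of_sq_le_sq (by nlinarith [sq_nonneg U]) hr0.le
  set m := max ‖a‖ ‖b‖ with hm
  have ha : ‖a‖ ≤ m := le_max_left _ _
  have hb : ‖b‖ ≤ m := le_max_right _ _
  have hm0 : 0 ≤ m := (norm_nonneg a).trans ha
  have hz0 := norm_nonneg z
  have nU : ‖(U : ℂ)‖ ≤ r := by rw [Complex.norm_real]; exact hU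
  have nW : ‖(W : ℂ)‖ ≤ r := by rw [Complex.norm_real]; exact hW
  have nr : ‖(r : ℂ)‖ = r := by rw [Complex.norm_real]; exact abs_of_pos hr0
  -- bound for `b`
  have hb1 : r * ‖b‖ ≤ ‖z‖ * ((‖z‖ + r) * m + r * m) := by
    have h3 : ‖(r : ℂ) * b‖ = r * ‖b‖ := by rw [norm_mul, nr]
    rw [← h3, h2, norm_mul]
    apply mul_le_mul_of_nonneg_left _ hz0
    refine (norm_add_le _ _).trans ?_
    rw [norm_mul, norm_mul]
    apply add_le_add
    · apply mul_le_mul _ hb (norm_nonneg _) (by positivity)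
      exact (norm_add_le _ _).trans (by linarith)
    · exact mul_le_mul nW ha (norm_nonneg _) hr0.le
  -- bound for `a`
  have ha1 : r ^ 2 * ‖a‖ ≤ r * ‖z‖ * ((‖z‖ + r) * m + r * m) + ‖z‖ * r * m + ‖z‖ * r * m := by
    have h3 : (r : ℂ) ^ 2 * a = (r : ℂ) * z * ((z + U) * a - W * b) - z * U * a - z * W * b := by
      linear_combination -h1
    have h4 : ‖(r : ℂ) ^ 2 * a‖ = r ^ 2 * ‖a‖ := by rw [norm_mul, norm_pow, nr]
    rw [← h4, h3]
    refine (norm_sub_le _ _).trans (add_le_add ((norm_sub_le _ _).trans (add_le_add ?_ ?_)) ?_)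
    · rw [norm_mul, norm_mul, nr]
      apply mul_le_mul_of_nonneg_left _ (by positivity)
      refine (norm_sub_le _ _).trans ?_
      rw [norm_mul, norm_mul]
      apply add_le_add
      · apply mul_le_mul _ ha (norm_nonneg _) (by positivity)
        exact (norm_add_le _ _).trans (by linarith)
      · exact mul_le_mul nW hb (norm_nonneg _) hr0.le
    · rw [norm_mul, norm_mul]
      exact mul_le_mul (mul_le_mul_of_nonneg_left nU hz0) ha (norm_nonneg _) (by positivity)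
    · rw [norm_mul, norm_mul]
      exact mul_le_mul (mul_le_mul_of_nonneg_left nW hz0) hb (norm_nonneg _) (by positivity)
  -- conclusion
  have hb2 : ‖b‖ ≤ 21 / 25 * m := by
    have h5 : ‖z‖ * ((‖z‖ + r) * m + r * m) ≤ 1 / 5 * ((1 / 5 + r) * m + r * m) := by
      apply mul_le_mul hz.le _ (by positivity) (by norm_num)
      have : (‖z‖ + r) * m ≤ (1 / 5 + r) * m := mul_le_mul_of_nonneg_right (by linarith) hm0
      linarith
    have h6 : r * ‖b‖ ≤ r * (21 / 25 * m) := by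
      have : m ≤ r * m := by nlinarith
      nlinarith
    exact le_of_mul_le_mul_left h6 hr0
  have ha2 : ‖a‖ ≤ 21 / 25 * m := by
    have h5 : ‖z‖ * ((‖z‖ + r) * m + r * m) ≤ 1 / 5 * ((1 / 5 + r) * m + r * m) := by
      apply mul_le_mul hz.le _ (by positivity) (by norm_num)
      have : (‖z‖ + r) * m ≤ (1 / 5 + r) * m := mul_le_mul_of_nonneg_right (by linarith) hm0
      linarith
    have h7 : ‖z‖ * r * m ≤ 1 / 5 * r * m := by
      apply mul_le_mul_of_nonneg_right _ hm0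
      exact mul_le_mul_of_nonneg_right hz.le hr0.le
    have h6 : r * (r * ‖a‖) ≤ r * (r * (21 / 25 * m)) := by
      have h8 : m ≤ r * m := by nlinarith
      have h9 : r * (‖z‖ * ((‖z‖ + r) * m + r * m)) ≤
          r * (1 / 5 * ((1 / 5 + r) * m + r * m)) := mul_le_mul_of_nonneg_left h5 hr0.le
      have h10 : r * m ≤ r * (r * m) := mul_le_mul_of_nonneg_left h8 hr0.le
      nlinarith
    exact le_of_mul_le_mul_left (le_of_mul_le_mul_left h6 hr0) hr0
  have hmle : m ≤ 21 / 25 * m := max_le ha2 hb2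
  have hm1 : m = 0 := by linarith
  rw [hm1] at ha hb
  exact ⟨norm_le_zero_iff.mp ha, norm_le_zero_iff.mp hb⟩

/-- The eigenvalue equation of the Jacobian matrix has no nontrivial solution for small `z`. -/
theorem no_small_eigen (v : Fin 4 → ℝ) (z : ℂ) (hz : ‖z‖ < 1 / 5) (w : Fin 4 → ℂ)
    (h : ((Mat v).map (algebraMap ℝ ℂ)) *ᵥ w = z • w) : w = 0 := by
  set c := Real.cos (v 1) with hc
  set sn := Real.sin (v 1) with hsn
  set e := Real.exp (-(v 0)) with he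
  set E := Real.exp (v 0) with hE
  set R := Real.sqrt (S v) with hR
  have hcs : c ^ 2 + sn ^ 2 = 1 := Real.cos_sq_add_sin_sq _
  have heE : e * E = 1 := by rw [he, hE, ← Real.exp_add]; simp
  have hR2 : R ^ 2 = E ^ 2 + v 2 ^ 2 + v 3 ^ 2 := Real.sq_sqrt (S_pos v).le
  have hR0 : 0 < R := Real.sqrt_pos.mpr (S_pos v)
  have he0 : 0 < e := Real.exp_pos _
  have e0 := congrFun h 0
  have e1 := congrFun h 1
  have e2 := congrFun h 2
  have e3 := congrFun h 3
  simp only [Mat, Matrix.mulVec, dotProduct, Fin.sum_univ_four, Matrix.map_apply,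
    Matrix.of_apply, Matrix.cons_val', Matrix.cons_val_zero, Matrix.cons_val_one,
    Matrix.cons_val, Pi.smul_apply, smul_eq_mul, ← hc, ← hsn, ← he, ← hE, ← hR,
    Complex.coe_algebraMap] at e0 e1 e2 e3
  push_cast at e0 e1 e2 e3
  have hcsC : (c : ℂ) ^ 2 + (sn : ℂ) ^ 2 = 1 := by exact_mod_cast hcs
  have heEC : (e : ℂ) * (E : ℂ) = 1 := by exact_mod_cast heE
  have hR2C : (R : ℂ) ^ 2 = (E : ℂ) ^ 2 + (v 2 : ℂ) ^ 2 + (v 3 : ℂ) ^ 2 := by exact_mod_cast hR2
  have hRC : (R : ℂ) ≠ 0 := by exact_mod_cast hR0.ne'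
  have heC : (e : ℂ) ≠ 0 := by exact_mod_cast he0.ne'
  obtain ⟨U, hU⟩ : ∃ U : ℝ, U = e * (v 2 * c + v 3 * sn) := ⟨_, rfl⟩
  obtain ⟨W, hW⟩ : ∃ W : ℝ, W = e * (v 3 * c - v 2 * sn) := ⟨_, rfl⟩
  have hUC : (U : ℂ) = e * (v 2 * c + v 3 * sn) := by rw [hU]; push_cast; ring
  have hWC : (W : ℂ) = e * (v 3 * c - v 2 * sn) := by rw [hW]; push_cast; ring
  rw [← hUC, ← hWC] at e0 e1
  have hr : (R * e) ^ 2 = 1 + U ^ 2 + W ^ 2 := by
    have h1 : U ^ 2 + W ^ 2 = e ^ 2 * (v 2 ^ 2 + v 3 ^ 2) := by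
      rw [hU, hW]
      linear_combination (e ^ 2 * (v 2 ^ 2 + v 3 ^ 2)) * hcs
    have h2 : (R * e) ^ 2 = (e * E) ^ 2 + e ^ 2 * (v 2 ^ 2 + v 3 ^ 2) := by
      rw [mul_pow, hR2]; ring
    rw [h2, heE]
    linarith
  have e2' : (c : ℂ) * ((E : ℂ) ^ 2 * w 0 + v 2 * w 2 + v 3 * w 3) - (R : ℂ) ^ 2 * sn * w 1 =
      R * z * w 2 := by
    have h1 := congrArg (fun t => (R : ℂ) * t) e2
    have h2 : (R : ℂ) * ((E : ℂ) ^ 2 / R * c * w 0 + -(R * sn) * w 1 + v 2 / R * c * w 2 +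
        v 3 / R * c * w 3) = (c : ℂ) * ((E : ℂ) ^ 2 * w 0 + v 2 * w 2 + v 3 * w 3) -
        (R : ℂ) ^ 2 * sn * w 1 := by
      field_simp
      ring
    rw [← h2, h1]; ring
  have e3' : (sn : ℂ) * ((E : ℂ) ^ 2 * w 0 + v 2 * w 2 + v 3 * w 3) + (R : ℂ) ^ 2 * c * w 1 =
      R * z * w 3 := by
    have h1 := congrArg (fun t => (R : ℂ) * t) e3
    have h2 : (R : ℂ) * ((E : ℂ) ^ 2 / R * sn * w 0 + R * c * w 1 + v 2 / R * sn * w 2 +
        v 3 / R * sn * w 3) = (sn : ℂ) * ((E : ℂ) ^ 2 * w 0 + v 2 * w 2 + v 3 * w 3) +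
        (R : ℂ) ^ 2 * c * w 1 := by
      field_simp
      ring
    rw [← h2, h1]; ring
  have hP : (e : ℂ) * (c * w 2 + sn * w 3) = (z + U) * w 0 - W * w 1 := by
    linear_combination e0
  have hQ : (e : ℂ) * (c * w 3 - sn * w 2) = (z + U) * w 1 + W * w 0 := by
    linear_combination e1
  have hzq : z * (c * w 3 - sn * w 2) = R * w 1 := by
    have : (R : ℂ) * (z * (c * w 3 - sn * w 2)) = R * (R * w 1) := by
      linear_combination (sn : ℂ) * e2' - (c : ℂ) * e3' + (R : ℂ) ^ 2 * w 1 * hcsC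
    exact mul_left_cancel₀ hRC this
  have hzp : (R : ℂ) * (z * (c * w 2 + sn * w 3)) =
      (E : ℂ) ^ 2 * w 0 + v 2 * w 2 + v 3 * w 3 := by
    linear_combination -(c : ℂ) * e2' - (sn : ℂ) * e3' +
      ((E : ℂ) ^ 2 * w 0 + v 2 * w 2 + v 3 * w 3) * hcsC
  have hred := reduced U W (R * e) hr (mul_pos hR0 he0) z (w 0) (w 1) hz (by
      have h3 : (e : ℂ) ^ 2 * (v 2 * w 2 + v 3 * w 3) =
          U * (e * (c * w 2 + sn * w 3)) + W * (e * (c * w 3 - sn * w 2)) := by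
        rw [hUC, hWC]
        linear_combination -((e : ℂ) ^ 2 * (v 2 * w 2 + v 3 * w 3)) * hcsC
      have h4 : ((R * e : ℝ) : ℂ) ^ 2 = 1 + (U : ℂ) ^ 2 + (W : ℂ) ^ 2 := by exact_mod_cast hr
      have h5 : ((R * e : ℝ) : ℂ) * z * (e * (c * w 2 + sn * w 3)) =
          (e * E) ^ 2 * w 0 + (e : ℂ) ^ 2 * (v 2 * w 2 + v 3 * w 3) := by
        push_cast
        linear_combination (e : ℂ) ^ 2 * hzp
      rw [h3, heEC, hP, hQ] at h5
      rw [h4, h5]
      ring) (by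
      push_cast
      rw [← hQ]
      linear_combination -(e : ℂ) * hzq)
  obtain ⟨ha, hb⟩ := hred
  rw [ha, hb] at hP hQ
  have hP' : (c : ℂ) * w 2 + sn * w 3 = 0 := by
    have : (e : ℂ) * (c * w 2 + sn * w 3) = 0 := by rw [hP]; ring
    exact (mul_eq_zero.mp this).resolve_left heC
  have hQ' : (c : ℂ) * w 3 - sn * w 2 = 0 := by
    have : (e : ℂ) * (c * w 3 - sn * w 2) = 0 := by rw [hQ]; ring
    exact (mul_eq_zero.mp this).resolve_left heC
  have hw2 : w 2 = 0 := by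
    linear_combination (c : ℂ) * hP' - (sn : ℂ) * hQ' - w 2 * hcsC
  have hw3 : w 3 = 0 := by
    linear_combination (sn : ℂ) * hP' + (c : ℂ) * hQ' - w 3 * hcsC
  funext i
  fin_cases i
  · exact ha
  · exact hb
  · exact hw2
  · exact hw3

/-- Small numbers are not roots of the characteristic polynomial. -/
theorem root_bound (v : Fin 4 → ℝ) (z : ℂ) (h : Polynomial.aeval z (Mat v).charpoly = 0) :
    1 / 5 ≤ ‖z‖ := by
  by_contra hlt
  push Not at hlt
  have h1 : ((Mat v).map (algebraMap ℝ ℂ)).charpoly.eval z = 0 := by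
    rw [Matrix.charpoly_map, Polynomial.eval_map, ← Polynomial.aeval_def]
    exact h
  rw [Matrix.eval_charpoly] at h1
  obtain ⟨w, hw, hw2⟩ := Matrix.exists_mulVec_eq_zero_iff.mpr h1
  apply hw
  apply no_small_eigen v z hlt w
  rw [Matrix.sub_mulVec, sub_eq_zero] at hw2
  rw [← hw2]
  funext i
  simp [Matrix.scalar_apply, Matrix.mulVec_diagonal]

end Pool.Agent.Y278.Cham
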