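import Mathlib

/-!
# A smooth periodic local diffeomorphism of `ℝ⁴` whose Jacobian eigenvalues are bounded away from 0

`F (z, ζ) = (ζ e^{-z}, e^{i Im z} √(e^{2 Re z} + |ζ|²))` on `ℂ²`.
-/

namespace Pool.Agent.Y278.Cham

open Matrix

/-- the radicand -/
noncomputable def S (v : Fin 4 → ℝ) : ℝ := Real.exp (v 0) ^ 2 + v 2 ^ 2 + v 3 ^ 2

theorem S_pos (v : Fin 4 → ℝ) : 0 < S v := by
  unfold S
  have := Real.exp_pos (v 0)
  positivity

/-- the map -/
noncomputable def F (v : Fin 4 → ℝ) : Fin 4 → ℝ :=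
  ![Real.exp (-(v 0)) * (v 2 * Real.cos (v 1) + v 3 * Real.sin (v 1)),
    Real.exp (-(v 0)) * (v 3 * Real.cos (v 1) - v 2 * Real.sin (v 1)),
    Real.sqrt (S v) * Real.cos (v 1),
    Real.sqrt (S v) * Real.sin (v 1)]

/-- its Jacobian matrix -/
noncomputable def Mat (v : Fin 4 → ℝ) : Matrix (Fin 4) (Fin 4) ℝ :=
  !![-(Real.exp (-(v 0)) * (v 2 * Real.cos (v 1) + v 3 * Real.sin (v 1))),
      Real.exp (-(v 0)) * (v 3 * Real.cos (v 1) - v 2 * Real.sin (v 1)),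
      Real.exp (-(v 0)) * Real.cos (v 1), Real.exp (-(v 0)) * Real.sin (v 1);
    -(Real.exp (-(v 0)) * (v 3 * Real.cos (v 1) - v 2 * Real.sin (v 1))),
      -(Real.exp (-(v 0)) * (v 2 * Real.cos (v 1) + v 3 * Real.sin (v 1))),
      -(Real.exp (-(v 0)) * Real.sin (v 1)), Real.exp (-(v 0)) * Real.cos (v 1);
    Real.exp (v 0) ^ 2 / Real.sqrt (S v) * Real.cos (v 1), -(Real.sqrt (S v) * Real.sin (v 1)),
      v 2 / Real.sqrt (S v) * Real.cos (v 1), v 3 / Real.sqrt (S v) * Real.cos (v 1);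
    Real.exp (v 0) ^ 2 / Real.sqrt (S v) * Real.sin (v 1), Real.sqrt (S v) * Real.cos (v 1),
      v 2 / Real.sqrt (S v) * Real.sin (v 1), v 3 / Real.sqrt (S v) * Real.sin (v 1)]

theorem contDiff_F : ContDiff ℝ 1 F := by
  rw [contDiff_pi]
  have hS : ContDiff ℝ 1 (fun v : Fin 4 → ℝ => Real.sqrt (S v)) := by
    apply ContDiff.sqrt
    · unfold S; fun_prop
    · intro v; exact (S_pos v).ne'
  intro i
  fin_cases i
  · show ContDiff ℝ 1 (fun v : Fin 4 → ℝ =>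
      Real.exp (-(v 0)) * (v 2 * Real.cos (v 1) + v 3 * Real.sin (v 1)))
    fun_prop
  · show ContDiff ℝ 1 (fun v : Fin 4 → ℝ =>
      Real.exp (-(v 0)) * (v 3 * Real.cos (v 1) - v 2 * Real.sin (v 1)))
    fun_prop
  · show ContDiff ℝ 1 (fun v : Fin 4 → ℝ => Real.sqrt (S v) * Real.cos (v 1))
    exact hS.mul (by fun_prop)
  · show ContDiff ℝ 1 (fun v : Fin 4 → ℝ => Real.sqrt (S v) * Real.sin (v 1))
    exact hS.mul (by fun_prop)

theorem hasFDerivAt_F (v : Fin 4 → ℝ) :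
    HasFDerivAt F (Matrix.toLin' (Mat v)).toContinuousLinearMap v := by
  rw [hasFDerivAt_pi']
  have h0 : HasFDerivAt (fun v : Fin 4 → ℝ => v 0) (ContinuousLinearMap.proj (R := ℝ) 0) v :=
    hasFDerivAt_apply 0 v
  have h1 : HasFDerivAt (fun v : Fin 4 → ℝ => v 1) (ContinuousLinearMap.proj (R := ℝ) 1) v :=
    hasFDerivAt_apply 1 v
  have h2 : HasFDerivAt (fun v : Fin 4 → ℝ => v 2) (ContinuousLinearMap.proj (R := ℝ) 2) v :=
    hasFDerivAt_apply 2 v
  have h3 : HasFDerivAt (fun v : Fin 4 → ℝ => v 3) (ContinuousLinearMap.proj (R := ℝ) 3) v :=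
    hasFDerivAt_apply 3 v
  have hS := (((h0.exp.pow 2).add (h2.pow 2)).add (h3.pow 2)).sqrt (S_pos v).ne'
  have hSp : Real.sqrt (S v) ≠ 0 := (Real.sqrt_pos.mpr (S_pos v)).ne'
  intro i
  fin_cases i
  · refine HasFDerivAt.congr_fderiv (h0.neg.exp.mul ((h2.mul h1.cos).add (h3.mul h1.sin))) ?_
    ext w
    simp [Mat, dotProduct, Fin.sum_univ_four]
    ring
  · refine HasFDerivAt.congr_fderiv (h0.neg.exp.mul ((h3.mul h1.cos).sub (h2.mul h1.sin))) ?_
    ext w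
    simp [Mat, dotProduct, Fin.sum_univ_four]
    ring
  · refine HasFDerivAt.congr_fderiv (hS.mul h1.cos) ?_
    ext w
    simp [Mat, dotProduct, Fin.sum_univ_four, S]
    field_simp
    ring
  · refine HasFDerivAt.congr_fderiv (hS.mul h1.sin) ?_
    ext w
    simp [Mat, dotProduct, Fin.sum_univ_four, S]
    field_simp
    ring

end Pool.Agent.Y278.Cham
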